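import Pool.Agent.MVD.StmtsLoc
import Pool.Agent.Helper97_MVD.INS

/-!
# Squad MVD, row INE: words as substitution instances, with two places of a letter `x`
-/

set_option autoImplicit false

namespace Pool.Agent.MVD.H60

open Pool.Agent.MVD Pool.Agent.Helper14_MV Pool.Agent.Helper2_MV

theorem two_count (x : ℕ) (p : List ℕ) (h : 2 ≤ p.count x) :
    ∃ A1 A2 A3, p = A1 ++ x :: (A2 ++ x :: A3) ∧ x ∉ A1 := by
  have h1 : x ∈ p := List.count_pos_iff.1 (by omega)
  obtain ⟨A, B, hAB, hA⟩ := List.eq_append_cons_of_mem h1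
  have h2 : x ∈ B := by
    rw [hAB, List.count_append, List.count_cons_self, List.count_eq_zero.2 hA] at h
    exact List.count_pos_iff.1 (by omega)
  obtain ⟨C, E, hCE⟩ := List.append_of_mem h2
  exact ⟨A, C, E, by rw [hAB, hCE], hA⟩

theorem ine : IneStmt := by
  intro p q D h x hD hx hc hmem
  classical
  obtain ⟨A1, A2, A3, hpA, -⟩ := two_count x p hc
  obtain ⟨f, hfe⟩ : ∃ f : ℕ → ℕ, ∀ e (he : e < D.length), f e = D[e] :=
    ⟨fun e => D.getD e 0, by
      intro e he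
      exact List.getD_eq_getElem D 0 he⟩
  have hinj : ∀ a, a < D.length → ∀ b, b < D.length → f a = f b → a = b := by
    intro a ha b hb hab
    rw [hfe a ha, hfe b hb] at hab
    exact (List.Nodup.getElem_inj_iff hD).1 hab
  have hfx : ∀ e, e < D.length → f e ≠ x := by
    intro e he h1
    rw [hfe e he] at h1
    exact hx (h1 ▸ List.getElem_mem he)
  have hpart : ∀ e, e < D.length → f e ∈ A1 ∨ f e ∈ A2 ∨ f e ∈ A3 ∨ f e ∈ q := by
    intro e he
    have h1 : f e ∈ D := by rw [hfe e he]; exact List.getElem_mem _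
    rcases hmem _ h1 with h2 | h2
    · rw [hpA, List.mem_append, List.mem_cons, List.mem_append, List.mem_cons] at h2
      rcases h2 with h2 | h2 | h2 | h2 | h2
      · exact Or.inl h2
      · exact absurd h2 (hfx e he)
      · exact Or.inr (Or.inl h2)
      · exact absurd h2 (hfx e he)
      · exact Or.inr (Or.inr (Or.inl h2))
    · exact Or.inr (Or.inr (Or.inr h2))
  obtain ⟨n, hn⟩ : ∃ n, n = D.length := ⟨_, rfl⟩
  rw [← hn] at hinj hfx hpart
  suffices hs : ∃ (P1 P2 P3 Q : List ℕ) (g : ℕ → List ℕ) (M : List ℕ),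
      (P1 ++ (P2 ++ (P3 ++ Q))).Perm (List.range n) ∧
      (∀ L : List ℕ, p ++ (L.flatMap g ++ q) =
        M ++ (EW 9 n (n + 1) P1 P2 P3 Q L).flatMap g) ∧
      g 9 = [x] ∧ (∀ c, c % 3 = 0 → c ≠ 9 → g c = h c) ∧
      ∀ e, g (3 * e + 1) = [f e] by
    obtain ⟨P1, P2, P3, Q, g, M, s1, s2, s3, s4, s5⟩ := hs
    refine ⟨P1, P2, P3, Q, g, M, ?_, ?_, s3, s4, ?_⟩
    · rw [← hn]
      exact s1
    · intro L
      rw [← hn]
      exact s2 L
    · intro e he
      rw [s5 e, hfe e he]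
  obtain ⟨E1, hE1⟩ : ∃ E, E = (List.range n).filter (fun e => decide (f e ∈ A1)) := ⟨_, rfl⟩
  obtain ⟨E2, hE2⟩ : ∃ E, E = (List.range n).filter
    (fun e => decide (f e ∉ A1 ∧ f e ∈ A2)) := ⟨_, rfl⟩
  obtain ⟨E3, hE3⟩ : ∃ E, E = (List.range n).filter
    (fun e => decide (f e ∉ A1 ∧ f e ∉ A2 ∧ f e ∈ A3)) := ⟨_, rfl⟩
  obtain ⟨E4, hE4⟩ : ∃ E, E = (List.range n).filter
    (fun e => decide (f e ∉ A1 ∧ f e ∉ A2 ∧ f e ∉ A3)) := ⟨_, rfl⟩
  have m1 : ∀ e, e ∈ E1 ↔ e < n ∧ f e ∈ A1 := by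
    intro e; rw [hE1, List.mem_filter, List.mem_range, decide_eq_true_iff]
  have m2 : ∀ e, e ∈ E2 ↔ e < n ∧ (f e ∉ A1 ∧ f e ∈ A2) := by
    intro e; rw [hE2, List.mem_filter, List.mem_range, decide_eq_true_iff]
  have m3 : ∀ e, e ∈ E3 ↔ e < n ∧ (f e ∉ A1 ∧ f e ∉ A2 ∧ f e ∈ A3) := by
    intro e; rw [hE3, List.mem_filter, List.mem_range, decide_eq_true_iff]
  have m4 : ∀ e, e ∈ E4 ↔ e < n ∧ (f e ∉ A1 ∧ f e ∉ A2 ∧ f e ∉ A3) := by
    intro e; rw [hE4, List.mem_filter, List.mem_range, decide_eq_true_iff]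
  have n1 : E1.Nodup := by rw [hE1]; exact List.nodup_range.filter _
  have n2 : E2.Nodup := by rw [hE2]; exact List.nodup_range.filter _
  have n3 : E3.Nodup := by rw [hE3]; exact List.nodup_range.filter _
  have n4 : E4.Nodup := by rw [hE4]; exact List.nodup_range.filter _
  obtain ⟨g1, P1, h1, hP1, e1⟩ := H97.skel f A1 E1 n1
    (fun a ha b hb => hinj a ((m1 a).1 ha).1 b ((m1 b).1 hb).1) (fun e he => ((m1 e).1 he).2)
  obtain ⟨g2, P2, h2, hP2, e2⟩ := H97.skel f A2 E2 n2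
    (fun a ha b hb => hinj a ((m2 a).1 ha).1 b ((m2 b).1 hb).1) (fun e he => ((m2 e).1 he).2.2)
  obtain ⟨g3, P3, h3, hP3, e3⟩ := H97.skel f A3 E3 n3
    (fun a ha b hb => hinj a ((m3 a).1 ha).1 b ((m3 b).1 hb).1) (fun e he => ((m3 e).1 he).2.2.2)
  obtain ⟨g4, Q, h4, hQ, e4⟩ := H97.skel f q E4 n4
    (fun a ha b hb => hinj a ((m4 a).1 ha).1 b ((m4 b).1 hb).1) (by
      intro e he
      obtain ⟨k0, k1, k2, k3⟩ := (m4 e).1 he
      rcases hpart e k0 with h5 | h5 | h5 | h5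
      · exact absurd h5 k1
      · exact absurd h5 k2
      · exact absurd h5 k3
      · exact h5)
  have k1 : ∀ e, e ∈ P1 ↔ e < n ∧ f e ∈ A1 := fun e => hP1.mem_iff.trans (m1 e)
  have k2 : ∀ e, e ∈ P2 ↔ e < n ∧ (f e ∉ A1 ∧ f e ∈ A2) := fun e => hP2.mem_iff.trans (m2 e)
  have k3 : ∀ e, e ∈ P3 ↔ e < n ∧ (f e ∉ A1 ∧ f e ∉ A2 ∧ f e ∈ A3) :=
    fun e => hP3.mem_iff.trans (m3 e)
  have k4 : ∀ e, e ∈ Q ↔ e < n ∧ (f e ∉ A1 ∧ f e ∉ A2 ∧ f e ∉ A3) :=
    fun e => hQ.mem_iff.trans (m4 e)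
  have hall : (P1 ++ (P2 ++ (P3 ++ Q))).Perm (List.range n) := by
    rw [List.perm_ext_iff_of_nodup ?_ List.nodup_range]
    · intro e
      rw [List.mem_append, List.mem_append, List.mem_append, List.mem_range, k1, k2, k3, k4]
      tauto
    · rw [List.nodup_append']
      refine ⟨hP1.nodup_iff.2 n1, ?_, ?_⟩
      · rw [List.nodup_append']
        refine ⟨hP2.nodup_iff.2 n2, ?_, ?_⟩
        · rw [List.nodup_append']
          refine ⟨hP3.nodup_iff.2 n3, hQ.nodup_iff.2 n4, ?_⟩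
          intro e h5 h6
          exact ((k4 e).1 h6).2.2.2 ((k3 e).1 h5).2.2.2
        · intro e h5 h6
          rcases List.mem_append.1 h6 with h7 | h7
          · exact ((k3 e).1 h7).2.2.1 ((k2 e).1 h5).2.2
          · exact ((k4 e).1 h7).2.2.1 ((k2 e).1 h5).2.2
      · intro e h5 h6
        rcases List.mem_append.1 h6 with h7 | h7
        · exact ((k2 e).1 h7).2.1 ((k1 e).1 h5).2
        · rcases List.mem_append.1 h7 with h8 | h8
          · exact ((k3 e).1 h8).2.1 ((k1 e).1 h5).2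
          · exact ((k4 e).1 h8).2.1 ((k1 e).1 h5).2
  obtain ⟨H, hH⟩ : ∃ H : ℕ → List ℕ, ∀ e, H e = if f e ∈ A1 then h1 e else
      if f e ∈ A2 then h2 e else if f e ∈ A3 then h3 e else h4 e := ⟨_, fun _ => rfl⟩
  obtain ⟨g, hg⟩ : ∃ g : ℕ → List ℕ, ∀ c, g c = if c = 9 then [x] else if c % 3 = 0 then h c else
      if c % 3 = 1 then [f (c / 3)] else if c = 2 then g4 else if c = 3 * (n + 1) + 2 then g2 else
        if c = 3 * (n + 1 + 1) + 2 then g3 else H (c / 3 - 1) := ⟨_, fun _ => rfl⟩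
  have ga : ∀ e, g (3 * e + 1) = [f e] := by
    intro e
    rw [hg, if_neg (by omega), if_neg (by omega), if_pos (by omega)]
    have : (3 * e + 1) / 3 = e := by omega
    rw [this]
  have gb : ∀ e, e < n → g (3 * (e + 1) + 2) = H e := by
    intro e he
    rw [hg, if_neg (by omega), if_neg (by omega), if_neg (by omega), if_neg (by omega),
      if_neg (by omega), if_neg (by omega)]
    have : (3 * (e + 1) + 2) / 3 - 1 = e := by omega
    rw [this]
  have gc : g (3 * 0 + 2) = g4 := by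
    rw [hg, if_neg (by omega), if_neg (by omega), if_neg (by omega), if_pos (by omega)]
  have gd : g (3 * (n + 1) + 2) = g2 := by
    rw [hg, if_neg (by omega), if_neg (by omega), if_neg (by omega), if_neg (by omega),
      if_pos rfl]
  have ge : g (3 * (n + 1 + 1) + 2) = g3 := by
    rw [hg, if_neg (by omega), if_neg (by omega), if_neg (by omega), if_neg (by omega),
      if_neg (by omega), if_pos rfl]
  have g9 : g 9 = [x] := by rw [hg, if_pos rfl]
  have key : ∀ (L P : List ℕ) (K : ℕ → List ℕ), (∀ e ∈ P, e < n ∧ H e = K e) →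
      (Bw (P.map (fun e => e + 1))
        (fun r => if r = 0 then L else [kx 9 n (n + 1) (r - 1)])).flatMap g =
        P.flatMap (fun e => f e :: K e) := by
    intro L P K hK
    unfold Bw
    rw [List.flatMap_assoc, List.flatMap_map]
    apply List.flatMap_congr
    intro e he
    obtain ⟨hk1, hk2⟩ := hK e he
    show List.flatMap g ((if e + 1 = 0 then L else [kx 9 n (n + 1) (e + 1 - 1)]) ++
      [3 * (e + 1) + 2]) = f e :: K e
    have hkx : kx 9 n (n + 1) (e + 1 - 1) = 3 * e + 1 := by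
      unfold kx
      rw [if_neg (by omega)]
      omega
    rw [if_neg (by omega), hkx, List.flatMap_append, List.flatMap_cons, List.flatMap_nil,
      List.flatMap_cons, List.flatMap_nil, List.append_nil, List.append_nil, gb e hk1, ga, hk2]
    rfl
  refine ⟨P1, P2, P3, Q, g, g1, hall, ?_, g9, ?_, ?_⟩
  · intro L
    unfold EW Wk lab
    rw [List.map_append, List.map_cons, List.map_append, List.map_cons, List.append_assoc,
      List.cons_append, List.append_assoc, List.cons_append]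
    rw [H97.Bw_append, H97.Bw_cons, H97.Bw_append, H97.Bw_cons, H97.Bw_append, H97.Bw_cons]
    simp only [List.flatMap_append, List.flatMap_cons]
    rw [key L P1 h1 (fun e he => ⟨((k1 e).1 he).1, by rw [hH, if_pos ((k1 e).1 he).2]⟩),
      key L P2 h2 (fun e he => ⟨((k2 e).1 he).1, by
        rw [hH, if_neg ((k2 e).1 he).2.1, if_pos ((k2 e).1 he).2.2]⟩),
      key L P3 h3 (fun e he => ⟨((k3 e).1 he).1, by
        rw [hH, if_neg ((k3 e).1 he).2.1, if_neg ((k3 e).1 he).2.2.1,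
          if_pos ((k3 e).1 he).2.2.2]⟩),
      key L Q h4 (fun e he => ⟨((k4 e).1 he).1, by
        rw [hH, if_neg ((k4 e).1 he).2.1, if_neg ((k4 e).1 he).2.2.1,
          if_neg ((k4 e).1 he).2.2.2]⟩), gc, gd, ge]
    have z1 : kx 9 n (n + 1) (n + 1 - 1) = 9 := by
      unfold kx
      rw [if_pos (by omega)]
    have z2 : kx 9 n (n + 1) (n + 1 + 1 - 1) = 9 := by
      unfold kx
      rw [if_pos (by omega)]
    rw [if_neg (by omega), if_neg (by omega), if_pos trivial, z1, z2]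
    simp only [List.flatMap_cons, List.flatMap_nil, List.append_nil, g9]
    nth_rewrite 1 [hpA]
    nth_rewrite 1 [e1]
    nth_rewrite 1 [e2]
    nth_rewrite 1 [e3]
    nth_rewrite 1 [e4]
    simp only [List.append_assoc, List.cons_append, List.nil_append]
  · intro c hc1 hc2
    rw [hg, if_neg hc2, if_pos hc1]
  · exact ga

end Pool.Agent.MVD.H60
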